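import Pool.Agent.Q265.EQ.B2

/-!
# Products of two counting problems

If `∑_{H₁ ≤ B} w₁ ~ c₁ B (log B)^a` and `∑_{H₂ ≤ B} w₂ ~ c₂ B (log B)^b` (bounded weights) then
`∑_{H₁ H₂ ≤ B} w₁ w₂ ~ c₁ c₂ a! b! / (a + b + 1)! B (log B)^(a + b + 1)`.
-/

set_option autoImplicit false

open Filter Topology Finset MeasureTheory

namespace Pool.Agent.Q248.EQ

open Q265.EQ

/-- the value of the beta integral -/
noncomputable def be (a b : ℕ) : ℝ := (a.factorial : ℝ) * b.factorial / (a + b + 1).factorial

lemma be_pos (a b : ℕ) : 0 < be a b := by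
  unfold be
  positivity

lemma beta_int (p q : ℕ) (L : ℝ) :
    ∫ v in (0 : ℝ)..L, v ^ p * (L - v) ^ q = be p q * L ^ (p + q + 1) := by
  induction q generalizing p with
  | zero =>
    simp only [pow_zero, mul_one, add_zero]
    rw [integral_pow]
    unfold be
    rw [Nat.factorial_zero, add_zero, Nat.factorial_succ]
    push_cast
    have h1 : (p.factorial : ℝ) ≠ 0 := by positivity
    have h2 : (p : ℝ) + 1 ≠ 0 := by positivity
    rw [zero_pow (by omega)]
    field_simp
    ring
  | succ q ih =>
    have h1 : ∫ v in (0 : ℝ)..L, (((p : ℝ) + 1) * (v ^ p * (L - v) ^ (q + 1)) -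
        ((q : ℝ) + 1) * (v ^ (p + 1) * (L - v) ^ q)) = 0 := by
      have h2 : ∀ v ∈ Set.uIcc 0 L, HasDerivAt (fun v : ℝ => v ^ (p + 1) * (L - v) ^ (q + 1))
          (((p : ℝ) + 1) * (v ^ p * (L - v) ^ (q + 1)) -
            ((q : ℝ) + 1) * (v ^ (p + 1) * (L - v) ^ q)) v := by
        intro v _
        have d1 : HasDerivAt (fun v : ℝ => v ^ (p + 1)) (((p + 1 : ℕ) : ℝ) * v ^ p) v := by
          simpa using hasDerivAt_pow (p + 1) v
        have d2 : HasDerivAt (fun v : ℝ => (L - v) ^ (q + 1))
            (((q + 1 : ℕ) : ℝ) * (L - v) ^ q * (-1)) v := by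
          have := ((hasDerivAt_id' v).const_sub L).fun_pow (q + 1)
          simpa using this
        have d3 := d1.mul d2
        refine d3.congr_deriv ?_
        push_cast
        ring
      rw [intervalIntegral.integral_eq_sub_of_hasDerivAt h2
        (Continuous.intervalIntegrable (by fun_prop) _ _)]
      simp
    rw [intervalIntegral.integral_sub (Continuous.intervalIntegrable (by fun_prop) _ _)
      (Continuous.intervalIntegrable (by fun_prop) _ _), intervalIntegral.integral_const_mul,
      intervalIntegral.integral_const_mul, ih (p + 1)] at h1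
    have hp : (p : ℝ) + 1 ≠ 0 := by positivity
    have h3 : ∫ v in (0 : ℝ)..L, v ^ p * (L - v) ^ (q + 1) =
        ((q : ℝ) + 1) / ((p : ℝ) + 1) * (be (p + 1) q * L ^ (p + 1 + q + 1)) := by
      rw [div_mul_eq_mul_div, eq_div_iff hp]
      linarith
    rw [h3]
    unfold be
    have e1 : p + 1 + q + 1 = p + (q + 1) + 1 := by ring
    rw [e1, Nat.factorial_succ p, Nat.factorial_succ q]
    push_cast
    field_simp

variable {T : Type*}

lemma S_mono_B {H w : T → ℝ} (hH : IsHt H) (hw : ∀ t, 0 ≤ w t) : Monotone (S H w (fun _ => 1)) := by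
  classical
  intro B B' h
  obtain ⟨F, hF⟩ := hH.cover (Φ := fun _ => 1) low_one B'
  rw [S_eq (fun t ht => hF t (ht.trans h)), S_eq hF]
  refine sum_le_sum fun t _ => ?_
  by_cases h1 : H t * 1 ≤ B
  · rw [if_pos h1, if_pos (h1.trans h)]
  · rw [if_neg h1]
    split_ifs
    · exact hw t
    · exact le_rfl

lemma S_meas {H w : T → ℝ} (hH : IsHt H) {C : ℝ} (hw : ∀ t, |w t| ≤ C) :
    Measurable (S H w (fun _ => 1)) := by
  have h1 : S H w (fun _ => 1) = fun B => S H (fun t => w t + |C|) (fun _ => 1) B -
      S H (fun _ => |C|) (fun _ => 1) B := by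
    funext B
    rw [← S_sub hH low_one]
    congr 1
    funext t
    ring
  rw [h1]
  refine (S_mono_B hH fun t => ?_).measurable.sub (S_mono_B hH fun t => abs_nonneg C).measurable
  have h3 := abs_le.1 (hw t)
  have h4 := le_abs_self C
  linarith [h3.1]

/-- heights are bounded from below -/
lemma IsHt_low {H : T → ℝ} (hH : IsHt H) : ∃ m : ℝ, 0 < m ∧ m ≤ 1 ∧ ∀ t, m < H t := by
  classical
  set F := (hH.fin 1).toFinset with hF
  rcases F.eq_empty_or_nonempty with h | h
  · refine ⟨1, one_pos, le_rfl, fun t => ?_⟩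
    by_contra hcon
    push Not at hcon
    have : t ∈ F := by
      rw [hF, Set.Finite.mem_toFinset]
      exact hcon
    rw [h] at this
    simp at this
  · obtain ⟨t0, ht0, hmin⟩ := F.exists_min_image H h
    have h1 : H t0 ≤ 1 := by
      rw [hF, Set.Finite.mem_toFinset] at ht0
      exact ht0
    have h0 := hH.pos t0
    refine ⟨H t0 / 2, by linarith, by linarith, fun t => ?_⟩
    by_cases h2 : H t ≤ 1
    · have : t ∈ F := by
        rw [hF, Set.Finite.mem_toFinset]
        exact h2
      have := hmin t this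
      linarith
    · push Not at h2
      linarith

/-- the value of one term in Abel's summation -/
lemma abel_one {h v0 L : ℝ} (hh : Real.exp v0 < h) (ψ : ℝ → ℝ) (c : ℝ)
    [Decidable (h ≤ Real.exp L)] [∀ v, Decidable (h ≤ Real.exp v)] (hL : v0 ≤ L) :
    ∫ v in v0..L, (if h ≤ Real.exp v then c * ψ v else 0) =
      if h ≤ Real.exp L then c * ∫ v in (Real.log h)..L, ψ v else 0 := by
  have h0 : 0 < h := (Real.exp_pos _).trans hh
  have hlog : v0 < Real.log h := by rwa [Real.lt_log_iff_exp_lt h0]
  have e1 : (fun v => if h ≤ Real.exp v then c * ψ v else 0) =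
      (Set.Ici (Real.log h)).indicator fun v => c * ψ v := by
    funext v
    by_cases hv : h ≤ Real.exp v
    · rw [if_pos hv, Set.indicator_of_mem]
      rw [Set.mem_Ici, Real.log_le_iff_le_exp h0]
      exact hv
    · rw [if_neg hv, Set.indicator_of_notMem]
      rw [Set.mem_Ici, Real.log_le_iff_le_exp h0]
      exact hv
  rw [intervalIntegral.integral_of_le hL]
  simp_rw [e1]
  rw [setIntegral_indicator measurableSet_Ici]
  have e2 : Set.Ioc v0 L ∩ Set.Ici (Real.log h) = Set.Icc (Real.log h) L := by
    ext v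
    simp only [Set.mem_inter_iff, Set.mem_Ioc, Set.mem_Ici, Set.mem_Icc]
    constructor
    · rintro ⟨⟨a, b⟩, c⟩
      exact ⟨c, b⟩
    · rintro ⟨a, b⟩
      exact ⟨⟨hlog.trans_le a, b⟩, a⟩
  rw [e2]
  by_cases h1 : h ≤ Real.exp L
  · rw [if_pos h1, integral_Icc_eq_integral_Ioc, ← intervalIntegral.integral_of_le,
      intervalIntegral.integral_const_mul]
    rw [Real.log_le_iff_le_exp h0]
    exact h1
  · rw [if_neg h1]
    have : Set.Icc (Real.log h) L = ∅ := by
      rw [Set.Icc_eq_empty_iff, Real.log_le_iff_le_exp h0]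
      exact h1
    rw [this]
    simp

/-- **Abel's summation.** -/
lemma abel {H w : T → ℝ} (hH : IsHt H) (b : ℕ) {v0 L : ℝ} (hv0 : ∀ t, Real.exp v0 < H t)
    (hL : v0 ≤ L) :
    S H (fun t => w t * (Real.exp L / H t) * (L - Real.log (H t)) ^ b) (fun _ => 1) (Real.exp L) =
      S H w (fun _ => 1) (Real.exp L) * 0 ^ b +
      Real.exp L * ((∫ v in v0..L, (S H w (fun _ => 1) (Real.exp v) * Real.exp (-v)) * (L - v) ^ b) +
        b * ∫ v in v0..L, (S H w (fun _ => 1) (Real.exp v) * Real.exp (-v)) * (L - v) ^ (b - 1)) := by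
  classical
  obtain ⟨F, hF⟩ := hH.cover (Φ := fun _ => 1) low_one (Real.exp L)
  have hF' : ∀ v, v ≤ L → ∀ t, H t * (fun _ => (1 : ℝ)) t ≤ Real.exp v → t ∈ F := fun v hv t ht =>
    hF t (ht.trans (Real.exp_le_exp.2 hv))
  -- the general integral
  have hint : ∀ ψ : ℝ → ℝ, Continuous ψ → ∫ v in v0..L, S H w (fun _ => 1) (Real.exp v) * ψ v =
      ∑ t ∈ F, if H t ≤ Real.exp L then w t * ∫ v in (Real.log (H t))..L, ψ v else 0 := by
    intro ψ hψ
    have e1 : ∫ v in v0..L, S H w (fun _ => 1) (Real.exp v) * ψ v =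
        ∫ v in v0..L, ∑ t ∈ F, if H t ≤ Real.exp v then w t * ψ v else 0 := by
      apply intervalIntegral.integral_congr
      intro v hv
      rw [Set.uIcc_of_le hL] at hv
      simp only
      rw [S_eq (hF' v hv.2), sum_mul]
      refine sum_congr rfl fun t _ => ?_
      rw [mul_one, ite_mul, zero_mul]
    rw [e1, intervalIntegral.integral_finsetSum]
    · refine sum_congr rfl fun t _ => ?_
      exact abel_one (hv0 t) ψ (w t) hL
    · intro t _
      have e3 : (fun v => if H t ≤ Real.exp v then w t * ψ v else 0) =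
          (Set.Ici (Real.log (H t))).indicator fun v => w t * ψ v := by
        funext v
        by_cases hv : H t ≤ Real.exp v
        · rw [if_pos hv, Set.indicator_of_mem]
          rw [Set.mem_Ici, Real.log_le_iff_le_exp (hH.pos t)]
          exact hv
        · rw [if_neg hv, Set.indicator_of_notMem]
          rw [Set.mem_Ici, Real.log_le_iff_le_exp (hH.pos t)]
          exact hv
      rw [e3, intervalIntegrable_iff]
      exact ((continuous_const.mul hψ).intervalIntegrable v0 L).def'.indicator measurableSet_Ici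
  have i1 := hint (fun v => Real.exp (-v) * (L - v) ^ b) (by fun_prop)
  have i2 := hint (fun v => Real.exp (-v) * (L - v) ^ (b - 1)) (by fun_prop)
  simp only [← mul_assoc] at i1 i2
  rw [i1, i2, S_eq hF, S_eq hF, mul_sum, ← sum_add_distrib, sum_mul, mul_sum, ← sum_add_distrib]
  refine sum_congr rfl fun t _ => ?_
  rw [mul_one]
  by_cases h1 : H t ≤ Real.exp L
  · simp only [if_pos h1]
    have hlog : Real.log (H t) ≤ L := by
      rw [Real.log_le_iff_le_exp (hH.pos t)]
      exact h1
    have hexp : Real.exp (-Real.log (H t)) = (H t)⁻¹ := by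
      rw [Real.exp_neg, Real.exp_log (hH.pos t)]
    -- the fundamental theorem of calculus
    have hftc : ∫ v in (Real.log (H t))..L, (-(Real.exp (-v) * (L - v) ^ b) -
        b * (Real.exp (-v) * (L - v) ^ (b - 1))) =
        Real.exp (-L) * 0 ^ b - (H t)⁻¹ * (L - Real.log (H t)) ^ b := by
      have h2 : ∀ v ∈ Set.uIcc (Real.log (H t)) L,
          HasDerivAt (fun v : ℝ => Real.exp (-v) * (L - v) ^ b)
          (-(Real.exp (-v) * (L - v) ^ b) - b * (Real.exp (-v) * (L - v) ^ (b - 1))) v := by
        intro v _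
        have d1 : HasDerivAt (fun v : ℝ => Real.exp (-v)) (Real.exp (-v) * (-1)) v :=
          ((hasDerivAt_id v).neg).exp
        have d2 : HasDerivAt (fun v : ℝ => (L - v) ^ b)
            ((b : ℝ) * (L - v) ^ (b - 1) * (-1)) v := by
          have := ((hasDerivAt_id' v).const_sub L).fun_pow b
          simpa using this
        have d3 := d1.mul d2
        refine d3.congr_deriv ?_
        ring
      rw [intervalIntegral.integral_eq_sub_of_hasDerivAt h2
        (Continuous.intervalIntegrable (by fun_prop) _ _), sub_self, hexp]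
    rw [intervalIntegral.integral_sub (Continuous.intervalIntegrable (by fun_prop) _ _)
      (Continuous.intervalIntegrable (by fun_prop) _ _), intervalIntegral.integral_const_mul,
      intervalIntegral.integral_neg] at hftc
    have e5 : Real.exp L * Real.exp (-L) = 1 := by rw [← Real.exp_add, add_neg_cancel, Real.exp_zero]
    set I1 := ∫ v in (Real.log (H t))..L, Real.exp (-v) * (L - v) ^ b
    set I2 := ∫ v in (Real.log (H t))..L, Real.exp (-v) * (L - v) ^ (b - 1)
    have e6 : I1 + b * I2 = (H t)⁻¹ * (L - Real.log (H t)) ^ b - Real.exp (-L) * 0 ^ b := by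
      linarith
    calc w t * (Real.exp L / H t) * (L - Real.log (H t)) ^ b
        = w t * (Real.exp L * ((H t)⁻¹ * (L - Real.log (H t)) ^ b)) := by ring
      _ = w t * (Real.exp L * (I1 + b * I2 + Real.exp (-L) * 0 ^ b)) := by
          rw [e6]
          ring
      _ = w t * (Real.exp L * (I1 + b * I2)) + w t * ((Real.exp L * Real.exp (-L)) * 0 ^ b) := by
          ring
      _ = _ := by
          rw [e5]
          ring
  · simp only [if_neg h1]
    ring

/-- **The asymptotics of the integral.** -/
lemma asym {A : ℝ → ℝ} (hA : Measurable A) (a b : ℕ) {c C v0 : ℝ} (hv0 : v0 ≤ 0)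
    (hb : ∀ v, v0 ≤ v → |A v| ≤ C * (1 + |v| ^ a))
    (hlim : Tendsto (fun v => A v / v ^ a) atTop (𝓝 c)) :
    Tendsto (fun L => (∫ v in v0..L, A v * (L - v) ^ b) / L ^ (a + b + 1)) atTop
      (𝓝 (c * be a b)) := by
  have hC : 0 ≤ C := by
    have h1 := hb v0 le_rfl
    have h2 := (abs_nonneg _).trans h1
    have h3 : (0 : ℝ) < 1 + |v0| ^ a := by positivity
    by_contra hcon
    push Not at hcon
    nlinarith
  have hbd : ∀ R : ℝ, ∀ v, v0 ≤ v → v ≤ R → |A v| ≤ C * (1 + (|v0| + |R|) ^ a) := by
    intro R v h1 h2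
    refine (hb v h1).trans ?_
    have h3 : |v| ≤ |v0| + |R| := by
      rw [abs_le]
      have := neg_abs_le v0
      have := le_abs_self R
      have := abs_nonneg v0
      have := abs_nonneg R
      constructor <;> linarith
    gcongr
  have hII : ∀ (L x y : ℝ), v0 ≤ x → x ≤ y → IntervalIntegrable (fun v => A v * (L - v) ^ b) volume x y := by
    intro L x y hx hxy
    have hIA : IntervalIntegrable A volume x y := by
      rw [intervalIntegrable_iff_integrableOn_Ioc_of_le hxy]
      refine Measure.integrableOn_of_bounded (M := C * (1 + (|v0| + |y|) ^ a)) (by simp)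
        hA.aestronglyMeasurable ?_
      rw [ae_restrict_iff' measurableSet_Ioc]
      refine Eventually.of_forall fun v hv => ?_
      rw [Real.norm_eq_abs]
      exact hbd y v (hx.trans hv.1.le) hv.2
    exact hIA.mul_continuousOn (by fun_prop)
  -- the two parts
  have hfirst : Tendsto (fun L => (∫ v in v0..0, A v * (L - v) ^ b) / L ^ (a + b + 1)) atTop (𝓝 0) := by
    set M := C * (1 + (|v0| + |(0 : ℝ)|) ^ a) with hM
    have hM0 : 0 ≤ M := by positivity
    have hz : Tendsto (fun L : ℝ => M * 2 ^ b * |0 - v0| * (1 / L)) atTop (𝓝 0) := by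
      have h1 : Tendsto (fun L : ℝ => 1 / L) atTop (𝓝 0) := by
        simpa using tendsto_inv_atTop_zero (𝕜 := ℝ)
      simpa using h1.const_mul (M * 2 ^ b * |0 - v0|)
    refine squeeze_zero_norm' ?_ hz
    filter_upwards [eventually_ge_atTop (max 1 |v0|)] with L hL
    have hL1 : 1 ≤ L := (le_max_left _ _).trans hL
    have hL2 : |v0| ≤ L := (le_max_right _ _).trans hL
    have hL0 : 0 < L := by linarith
    rw [norm_div, norm_pow, Real.norm_of_nonneg hL0.le, div_le_iff₀ (by positivity)]
    have h1 : ‖∫ v in v0..0, A v * (L - v) ^ b‖ ≤ (M * (2 * L) ^ b) * |0 - v0| := by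
      apply intervalIntegral.norm_integral_le_of_norm_le_const
      intro v hv
      rw [Set.uIoc_of_le hv0] at hv
      rw [norm_mul, norm_pow, Real.norm_eq_abs, Real.norm_eq_abs]
      have h2 := hbd 0 v hv.1.le hv.2
      have h3 : |L - v| ≤ 2 * L := by
        rw [abs_le]
        have := neg_abs_le v0
        have := hv.1
        have := hv.2
        constructor <;> linarith
      exact mul_le_mul h2 (by gcongr) (by positivity) hM0
    refine h1.trans ?_
    have h4 : L ^ b ≤ L ^ (a + b) := pow_le_pow_right₀ hL1 (by omega)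
    calc (M * (2 * L) ^ b) * |0 - v0| = M * 2 ^ b * |0 - v0| * L ^ b := by rw [mul_pow]; ring
      _ ≤ M * 2 ^ b * |0 - v0| * L ^ (a + b) := by gcongr
      _ = M * 2 ^ b * |0 - v0| * (1 / L) * L ^ (a + b + 1) := by
          rw [pow_succ]
          field_simp
  have hsecond : Tendsto (fun L => (∫ v in (0 : ℝ)..L, A v * (L - v) ^ b) / L ^ (a + b + 1)) atTop
      (𝓝 (c * be a b)) := by
    have hscale : ∀ L : ℝ, 0 < L → (∫ v in (0 : ℝ)..L, A v * (L - v) ^ b) / L ^ (a + b + 1) =
        ∫ s in (0 : ℝ)..1, (A (L * s) / L ^ a) * (1 - s) ^ b := by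
      intro L hL
      have h1 := intervalIntegral.integral_comp_mul_left (a := 0) (b := 1)
        (fun v => A v * (L - v) ^ b) hL.ne'
      rw [mul_zero, mul_one, smul_eq_mul] at h1
      have h2 : ∫ v in (0 : ℝ)..L, A v * (L - v) ^ b =
          L * ∫ s in (0 : ℝ)..1, A (L * s) * (L - L * s) ^ b := by
        rw [h1, ← mul_assoc, mul_inv_cancel₀ hL.ne', one_mul]
      rw [h2, mul_div_assoc, ← intervalIntegral.integral_div, ← intervalIntegral.integral_const_mul]
      apply intervalIntegral.integral_congr
      intro s _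
      simp only
      have e : L - L * s = L * (1 - s) := by ring
      rw [e, mul_pow, pow_add, pow_add, pow_one]
      field_simp
    have hconv : Tendsto (fun L : ℝ => ∫ s in (0 : ℝ)..1, (A (L * s) / L ^ a) * (1 - s) ^ b) atTop
        (𝓝 (∫ s in (0 : ℝ)..1, (c * s ^ a) * (1 - s) ^ b)) := by
      refine intervalIntegral.tendsto_integral_filter_of_dominated_convergence
        (fun _ => C * 2) ?_ ?_ ?_ ?_
      · refine Eventually.of_forall fun L => ?_
        refine Measurable.aestronglyMeasurable ?_
        have h1 : Measurable fun s : ℝ => A (L * s) := hA.comp (by fun_prop)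
        exact (h1.div_const _).mul (by fun_prop)
      · filter_upwards [eventually_ge_atTop 1] with L hL
        refine Eventually.of_forall fun s hs => ?_
        rw [Set.uIoc_of_le zero_le_one] at hs
        have hs0 : 0 < s := hs.1
        have hLs : 0 ≤ L * s := by positivity
        rw [norm_mul, norm_div, norm_pow, norm_pow, Real.norm_eq_abs, Real.norm_eq_abs,
          Real.norm_eq_abs, abs_of_nonneg (by linarith : (0 : ℝ) ≤ L),
          abs_of_nonneg (by linarith [hs.2] : (0 : ℝ) ≤ 1 - s)]
        have h1 := hb (L * s) (hv0.trans hLs)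
        rw [abs_of_nonneg hLs] at h1
        have hLa : 1 ≤ L ^ a := one_le_pow₀ hL
        have h2 : (L * s) ^ a ≤ L ^ a := by
          have : L * s ≤ L := by nlinarith [hs.2]
          gcongr
        have h3 : |A (L * s)| / L ^ a ≤ C * 2 := by
          rw [div_le_iff₀ (by positivity)]
          refine h1.trans ?_
          nlinarith
        have h4 : (1 - s) ^ b ≤ 1 := pow_le_one₀ (by linarith [hs.2]) (by linarith)
        calc |A (L * s)| / L ^ a * (1 - s) ^ b ≤ (C * 2) * 1 :=
              mul_le_mul h3 h4 (by have := hs.2; positivity) (by positivity)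
          _ = C * 2 := mul_one _
      · exact intervalIntegrable_const
      · refine Eventually.of_forall fun s hs => ?_
        rw [Set.uIoc_of_le zero_le_one] at hs
        have hs0 : 0 < s := hs.1
        refine Tendsto.mul_const _ ?_
        have h1 : Tendsto (fun L : ℝ => A (L * s) / (L * s) ^ a) atTop (𝓝 c) :=
          hlim.comp (tendsto_id.atTop_mul_const hs0)
        refine (h1.mul_const (s ^ a)).congr' ?_
        filter_upwards [eventually_gt_atTop 0] with L hL
        rw [mul_pow]
        field_simp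
    have hval : ∫ s in (0 : ℝ)..1, (c * s ^ a) * (1 - s) ^ b = c * be a b := by
      have h1 := beta_int a b 1
      rw [one_pow, mul_one] at h1
      rw [← h1, ← intervalIntegral.integral_const_mul]
      congr 1
      funext s
      ring
    rw [← hval]
    refine hconv.congr' ?_
    filter_upwards [eventually_gt_atTop 0] with L hL
    exact (hscale L hL).symm
  have h := hfirst.add hsecond
  rw [zero_add] at h
  refine h.congr' ?_
  filter_upwards [eventually_ge_atTop 0] with L hL
  rw [← add_div, intervalIntegral.integral_add_adjacent_intervals (hII L v0 0 le_rfl hv0)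
    (hII L 0 L hv0 hL)]

/-- **The main term.** -/
theorem main_term {H w : T → ℝ} (hH : IsHt H) {C : ℝ} (hw : ∀ t, |w t| ≤ C) (a b : ℕ) {c : ℝ}
    (h : HasLim H a w c) :
    Tendsto (fun B => S H (fun t => w t * (B / H t) * (Real.log (B / H t)) ^ b) (fun _ => 1) B /
      X (a + b + 1) B) atTop (𝓝 (c * be a b)) := by
  obtain ⟨m, hm0, hm1, hm⟩ := IsHt_low hH
  set v0 := Real.log m with hv0
  have hev0 : Real.exp v0 = m := Real.exp_log hm0
  have hv00 : v0 ≤ 0 := Real.log_nonpos hm0.le hm1
  set A : ℝ → ℝ := fun v => S H w (fun _ => 1) (Real.exp v) * Real.exp (-v) with hAdef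
  have hAm : Measurable A := ((S_meas hH hw).comp Real.measurable_exp).mul (by fun_prop)
  have hX : ∀ (k : ℕ) (v : ℝ), X k (Real.exp v) = Real.exp v * v ^ k := by
    intro k v
    unfold X
    rw [Real.log_exp]
  have hAlim : ∀ {w : T → ℝ} {c : ℝ}, HasLim H a w c →
      Tendsto (fun v => (S H w (fun _ => 1) (Real.exp v) * Real.exp (-v)) / v ^ a) atTop (𝓝 c) := by
    intro w c h
    refine (h.comp Real.tendsto_exp_atTop).congr fun v => ?_
    rw [Function.comp_apply, hX, Real.exp_neg, div_mul_eq_div_div, div_eq_mul_inv (S H w _ _)]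
  -- the bound
  obtain ⟨D, hD⟩ : ∃ D : ℝ, ∀ v, v0 ≤ v → |A v| ≤ D * (1 + |v| ^ a) := by
    have h1 := (hAlim h).abs.eventually_lt_const (lt_add_one |c|)
    obtain ⟨v1, hv1⟩ := eventually_atTop.1 (h1.and (eventually_gt_atTop 0))
    set N := S H (fun _ => 1) (fun _ => 1) (Real.exp v1) with hN
    have hN0 : 0 ≤ N := S_nonneg hH low_one (fun _ => zero_le_one) _
    refine ⟨(|c| + 1) + |C| * N * Real.exp (-v0), fun v hv => ?_⟩
    have hpos : 0 ≤ |C| * N * Real.exp (-v0) := by positivity
    rcases le_or_gt v1 v with h2 | h2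
    · obtain ⟨g1, g2⟩ := hv1 v h2
      have g3 : |A v| ≤ (|c| + 1) * |v| ^ a := by
        rw [abs_div, abs_pow, div_lt_iff₀ (by positivity)] at g1
        exact g1.le
      refine g3.trans ?_
      have : 0 ≤ |v| ^ a := by positivity
      have := abs_nonneg c
      nlinarith
    · have g1 : |S H w (fun _ => 1) (Real.exp v)| ≤ |C| * N := by
        have g2 : ∀ t, |w t| ≤ |C| := fun t => (hw t).trans (le_abs_self C)
        have g3 : |S H w (fun _ => 1) (Real.exp v)| ≤ |C| * S H (fun _ => 1) (fun _ => 1) (Real.exp v) := by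
          rw [← S_smul hH low_one, abs_le]
          constructor
          · have := S_mono hH low_one (w := fun t => -1 * (|C| * 1)) (w' := w) (fun t => by
              have := (abs_le.1 (g2 t)).1
              linarith) (Real.exp v)
            rw [S_smul hH low_one] at this
            linarith
          · exact S_mono hH low_one (fun t => by
              have := (abs_le.1 (g2 t)).2
              linarith) (Real.exp v)
        refine g3.trans ?_
        have := S_mono_B hH (w := fun _ => 1) (fun _ => zero_le_one) (Real.exp_le_exp.2 h2.le)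
        exact mul_le_mul_of_nonneg_left this (abs_nonneg C)
      have g4 : |A v| ≤ |C| * N * Real.exp (-v0) := by
        rw [hAdef]
        simp only
        rw [abs_mul, abs_of_pos (Real.exp_pos _)]
        exact mul_le_mul g1 (Real.exp_le_exp.2 (by linarith)) (Real.exp_pos _).le (by positivity)
      refine g4.trans ?_
      have : 0 ≤ |v| ^ a := by positivity
      have := abs_nonneg c
      nlinarith
  -- in terms of `L`
  have key : Tendsto (fun L => S H (fun t => w t * (Real.exp L / H t) * (L - Real.log (H t)) ^ b)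
      (fun _ => 1) (Real.exp L) / X (a + b + 1) (Real.exp L)) atTop (𝓝 (c * be a b)) := by
    have k1 := asym hAm a b hv00 hD (hAlim h)
    have k2 : Tendsto (fun L => (S H w (fun _ => 1) (Real.exp L) * Real.exp (-L)) / L ^ a *
        (0 ^ b / L ^ (b + 1))) atTop (𝓝 0) := by
      have h1 : Tendsto (fun L : ℝ => (0 : ℝ) ^ b / L ^ (b + 1)) atTop (𝓝 0) :=
        Tendsto.div_atTop tendsto_const_nhds (tendsto_pow_atTop (by omega))
      simpa using (hAlim h).mul h1
    have k3 : Tendsto (fun L => (b : ℝ) * (∫ v in v0..L, A v * (L - v) ^ (b - 1)) / L ^ (a + b + 1))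
        atTop (𝓝 0) := by
      rcases Nat.eq_zero_or_pos b with rfl | hb
      · simp
      · obtain ⟨b', rfl⟩ : ∃ b', b = b' + 1 := ⟨b - 1, by omega⟩
        rw [Nat.add_sub_cancel]
        have h1 := asym hAm a b' hv00 hD (hAlim h)
        have h2 : Tendsto (fun L : ℝ => ((b' + 1 : ℕ) : ℝ) / L) atTop (𝓝 0) :=
          Tendsto.div_atTop tendsto_const_nhds tendsto_id
        have h3 := h2.mul h1
        rw [zero_mul] at h3
        refine h3.congr' ?_
        filter_upwards [eventually_gt_atTop 0] with L hL
        rw [← add_assoc a b' 1, pow_succ L (a + b' + 1)]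
        field_simp
    have k4 := (k2.add k1).add k3
    rw [zero_add, add_zero] at k4
    refine k4.congr' ?_
    filter_upwards [eventually_gt_atTop 0] with L hL
    rw [abel hH b (v0 := v0) (fun t => by rw [hev0]; exact hm t) (by linarith), hX]
    rw [Real.exp_neg]
    have hE := (Real.exp_pos L).ne'
    have e1 : L ^ (a + b + 1) = L ^ a * L ^ (b + 1) := by rw [← pow_add, add_assoc]
    have hLa : L ^ a ≠ 0 := by positivity
    have hLb : L ^ (b + 1) ≠ 0 := by positivity
    simp only [hAdef, Real.exp_neg]
    rw [e1]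
    field_simp
    ring
  have hfin := key.comp Real.tendsto_log_atTop
  refine hfin.congr' ?_
  filter_upwards [eventually_gt_atTop 0] with B hB
  simp only [Function.comp_apply]
  rw [Real.exp_log hB]
  congr 2
  funext t
  rw [Real.log_div hB.ne' (hH.pos t).ne']

end Pool.Agent.Q248.EQ
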