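import Pool.Agent.Q248.EQ.Prod

/-!
# The height on the product of a family
-/

set_option autoImplicit false

open Filter Topology Finset MeasureTheory

namespace Pool.Agent.Q248.EQ

open Q265.EQ

section equiv

variable {T T' : Type*}

lemma S_equiv (e : T ≃ T') (H w : T' → ℝ) (B : ℝ) :
    S (fun t => H (e t)) (fun t => w (e t)) (fun _ => 1) B = S H w (fun _ => 1) B := by
  classical
  unfold S
  exact finsum_comp_equiv e (f := fun t => if H t * 1 ≤ B then w t else 0)

lemma IsHt.equiv {H : T' → ℝ} (hH : IsHt H) (e : T ≃ T') : IsHt fun t => H (e t) :=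
  ⟨fun t => hH.pos _, fun R => (hH.fin R).preimage e.injective.injOn⟩

lemma HasLim.equiv_iff {H w : T' → ℝ} {k : ℕ} {c : ℝ} (e : T ≃ T') :
    HasLim (fun t => H (e t)) k (fun t => w (e t)) c ↔ HasLim H k w c := by
  unfold HasLim
  have : ∀ B, S (fun t => H (e t)) (fun t => w (e t)) (fun _ => 1) B = S H w (fun _ => 1) B :=
    fun B => S_equiv e H w B
  simp only [this]

end equiv

/-- the constant of the product -/
noncomputable def bf {m : ℕ} (k : Fin (m + 1) → ℕ) : ℝ :=
  (∏ j, ((k j).factorial : ℝ)) / ((∑ j, k j) + m).factorial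

lemma bf_pos {m : ℕ} (k : Fin (m + 1) → ℕ) : 0 < bf k := by
  unfold bf
  have : 0 < ∏ j, ((k j).factorial : ℝ) := prod_pos fun j _ => by positivity
  positivity

theorem fam {m : ℕ} (T : Fin (m + 1) → Type) (H : ∀ j, T j → ℝ) (hH : ∀ j, IsHt (H j))
    (k : Fin (m + 1) → ℕ) (d : Fin (m + 1) → ℝ) (hd : ∀ j, HasLim (H j) (k j) (fun _ => 1) (d j)) :
    IsHt (fun x : ∀ j, T j => ∏ j, H j (x j)) ∧
    ∀ (w : ∀ j, T j → ℝ) (c : Fin (m + 1) → ℝ), (∀ j, ∃ C : ℝ, ∀ t, |w j t| ≤ C) →
      (∀ j, HasLim (H j) (k j) (w j) (c j)) →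
      HasLim (fun x : ∀ j, T j => ∏ j, H j (x j)) ((∑ j, k j) + m) (fun x => ∏ j, w j (x j))
        (bf k * ∏ j, c j) := by
  induction m with
  | zero =>
    let e : (∀ j, T j) ≃ T 0 :=
      { toFun := fun x => x 0
        invFun := fun t j => (Fin.fin_one_eq_zero j).symm ▸ t
        left_inv := fun x => by
          funext j
          obtain rfl : j = 0 := Fin.fin_one_eq_zero j
          rfl
        right_inv := fun t => rfl }
    have he : ∀ x : ∀ j, T j, e x = x 0 := fun x => rfl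
    have e1 : (fun x : ∀ j, T j => ∏ j, H j (x j)) = fun x => H 0 (e x) := by
      funext x
      rw [Fin.prod_univ_one, he]
    refine ⟨?_, fun w c hw hc => ?_⟩
    · rw [e1]
      exact IsHt.equiv (hH 0) e
    · have e2 : (fun x : ∀ j, T j => ∏ j, w j (x j)) = fun x => w 0 (e x) := by
        funext x
        rw [Fin.prod_univ_one, he]
      rw [e1, e2]
      refine (HasLim.equiv_iff (H := H 0) (w := w 0) e).2 ?_
      have e3 : (∑ j, k j) + 0 = k 0 := by rw [Fin.sum_univ_one, add_zero]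
      have e4 : bf k * ∏ j, c j = c 0 := by
        unfold bf
        rw [e3, Fin.prod_univ_one, Fin.prod_univ_one, div_self (by positivity), one_mul]
      rw [e3, e4]
      exact hc 0
  | succ m ih =>
    obtain ⟨i1, i2⟩ := ih (fun j => T j.succ) (fun j => H j.succ) (fun j => hH _)
      (fun j => k j.succ) (fun j => d j.succ) fun j => hd _
    let e : (∀ j, T j) ≃ T 0 × (∀ j : Fin (m + 1), T j.succ) := (Fin.consEquiv T).symm
    have e1 : (fun x : ∀ j, T j => ∏ j, H j (x j)) =
        fun x => (fun p : T 0 × (∀ j : Fin (m + 1), T j.succ) =>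
          H 0 p.1 * ∏ j, H j.succ (p.2 j)) (e x) := by
      funext x
      rw [Fin.prod_univ_succ]
      rfl
    refine ⟨?_, fun w c hw hc => ?_⟩
    · rw [e1]
      exact IsHt.equiv (isHt_prod (hH 0) i1) e
    · have e2 : (fun x : ∀ j, T j => ∏ j, w j (x j)) =
          fun x => (fun p : T 0 × (∀ j : Fin (m + 1), T j.succ) =>
            w 0 p.1 * ∏ j, w j.succ (p.2 j)) (e x) := by
        funext x
        rw [Fin.prod_univ_succ]
        rfl
      rw [e1, e2]
      refine (HasLim.equiv_iff (H := fun p : T 0 × (∀ j : Fin (m + 1), T j.succ) =>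
        H 0 p.1 * ∏ j, H j.succ (p.2 j)) (w := fun p : T 0 × (∀ j : Fin (m + 1), T j.succ) =>
        w 0 p.1 * ∏ j, w j.succ (p.2 j)) e).2 ?_
      have h2 := i2 (fun j => w j.succ) (fun j => c j.succ) (fun j => hw _) fun j => hc _
      obtain ⟨C, hC⟩ := hw 0
      have hC' : ∃ C' : ℝ, ∀ p : (∀ j : Fin (m + 1), T j.succ), |∏ j, w j.succ (p j)| ≤ C' := by
        choose D hD using hw
        refine ⟨∏ j : Fin (m + 1), D j.succ, fun p => ?_⟩
        rw [abs_prod]
        exact prod_le_prod (fun j _ => abs_nonneg _) fun j _ => hD _ _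
      obtain ⟨C', hC'⟩ := hC'
      have h3 := lim_prod (hH 0) i1 hC hC' (hc 0) h2 (hd 0)
      have e3 : (∑ j, k j) + (m + 1) = k 0 + ((∑ j : Fin (m + 1), k j.succ) + m) + 1 := by
        rw [Fin.sum_univ_succ]
        ring
      have e4 : bf k * ∏ j, c j = be (k 0) ((∑ j : Fin (m + 1), k j.succ) + m) *
          (c 0 * (bf (fun j : Fin (m + 1) => k j.succ) * ∏ j : Fin (m + 1), c j.succ)) := by
        unfold bf be
        rw [e3, Fin.prod_univ_succ, Fin.prod_univ_succ c]
        field_simp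
      rw [e3, e4]
      exact h3

section closure

variable {m : ℕ} {T : Fin (m + 1) → Type} (G : ∀ j, Submonoid (T j → ℝ))

/-- the monoid of the products -/
def GP : Submonoid ((∀ j, T j) → ℝ) where
  carrier := {f | ∃ g : ∀ j, T j → ℝ, (∀ j, g j ∈ G j) ∧ f = fun x => ∏ j, g j (x j)}
  one_mem' := ⟨fun _ => 1, fun j => one_mem _, by funext x; simp⟩
  mul_mem' := by
    rintro f f' ⟨g, hg, rfl⟩ ⟨g', hg', rfl⟩
    refine ⟨fun j => g j * g' j, fun j => mul_mem (hg j) (hg' j), ?_⟩
    funext x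
    simp only [Pi.mul_apply]
    rw [prod_mul_distrib]

/-- the pull-back of functions on one factor -/
def pull (j : Fin (m + 1)) : (T j → ℝ) →ₐ[ℝ] ((∀ j, T j) → ℝ) where
  toFun f := fun x => f (x j)
  map_one' := rfl
  map_mul' _ _ := rfl
  map_zero' := rfl
  map_add' _ _ := rfl
  commutes' _ := rfl

lemma pull_mem (j : Fin (m + 1)) {g : T j → ℝ} (hg : g ∈ Algebra.adjoin ℝ (G j : Set (T j → ℝ))) :
    pull j g ∈ Algebra.adjoin ℝ (GP G : Set ((∀ j, T j) → ℝ)) := by
  classical
  have h : Algebra.adjoin ℝ (G j : Set (T j → ℝ)) ≤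
      (Algebra.adjoin ℝ (GP G : Set ((∀ j, T j) → ℝ))).comap (pull j) := by
    refine Algebra.adjoin_le fun f hf => ?_
    refine Algebra.subset_adjoin ?_
    refine ⟨fun i => if h : i = j then h ▸ f else 1, fun i => ?_, ?_⟩
    · by_cases h : i = j
      · subst h
        simpa using hf
      · simp only [dif_neg h]
        exact one_mem _
    · funext x
      rw [prod_eq_single j]
      · simp only [dite_true]
        rfl
      · intro i _ hi
        simp only [dif_neg hi]
        rfl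
      · intro h
        exact absurd (mem_univ j) h
  exact h hg

lemma Cl_pull (j : Fin (m + 1)) {F : T j → ℝ} (hF : Cl (G j) F) :
    Cl (GP G) fun x => F (x j) := by
  intro ε hε
  obtain ⟨g, hg, h⟩ := hF ε hε
  exact ⟨pull j g, pull_mem G j hg, fun x => h (x j)⟩

lemma Cl_cl {T : Type*} {G : Submonoid (T → ℝ)} {F : T → ℝ}
    (h : ∀ ε : ℝ, 0 < ε → ∃ g, Cl G g ∧ ∀ t, |F t - g t| ≤ ε) : Cl G F := by
  intro ε hε
  obtain ⟨g, hg, h1⟩ := h (ε / 2) (by linarith)
  obtain ⟨g', hg', h2⟩ := hg (ε / 2) (by linarith)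
  refine ⟨g', hg', fun t => ?_⟩
  have h3 : F t - g' t = (F t - g t) + (g t - g' t) := by ring
  rw [h3]
  exact (abs_add_le _ _).trans (by linarith [h1 t, h2 t])

lemma Cl_sum {T : Type*} {G : Submonoid (T → ℝ)} {ι : Type*} (s : Finset ι) {f : ι → T → ℝ}
    (h : ∀ i ∈ s, Cl G (f i)) : Cl G fun t => ∑ i ∈ s, f i t := by
  classical
  induction s using Finset.induction_on with
  | empty => simpa using Cl.const (G := G) 0
  | insert i s hi ih =>
    simp only [sum_insert hi]
    exact (h i (mem_insert_self _ _)).add (ih fun j hj => h j (mem_insert_of_mem hj))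

lemma Cl_prod {T : Type*} {H : T → ℝ} {k : ℕ} {G : Submonoid (T → ℝ)} (hH : IsHt H)
    (hG : ∀ g ∈ G, (∃ C : ℝ, ∀ t, |g t| ≤ C) ∧ ∃ c, HasLim H k g c) {ι : Type*} (s : Finset ι)
    {f : ι → T → ℝ} (h : ∀ i ∈ s, Cl G (f i)) : Cl G fun t => ∏ i ∈ s, f i t := by
  classical
  induction s using Finset.induction_on with
  | empty => simpa using Cl.const (G := G) 1
  | insert i s hi ih =>
    simp only [prod_insert hi]
    exact (h i (mem_insert_self _ _)).mul hH hG (ih fun j hj => h j (mem_insert_of_mem hj))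

end closure

/-- everything about the products of the family -/
theorem hGP {m : ℕ} (T : Fin (m + 1) → Type) (H : ∀ j, T j → ℝ) (hH : ∀ j, IsHt (H j))
    (k : Fin (m + 1) → ℕ) (G : ∀ j, Submonoid (T j → ℝ))
    (hG : ∀ j, ∀ g ∈ G j, (∃ C : ℝ, ∀ t, |g t| ≤ C) ∧ ∃ c, HasLim (H j) (k j) g c) :
    ∀ g ∈ GP G, (∃ C : ℝ, ∀ x, |g x| ≤ C) ∧
      ∃ c, HasLim (fun x : ∀ j, T j => ∏ j, H j (x j)) ((∑ j, k j) + m) g c := by
  have hone : ∀ j, ∃ c, HasLim (H j) (k j) (fun _ => 1) c := fun j => (hG j 1 (one_mem _)).2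
  choose d hd using hone
  obtain ⟨-, hf⟩ := fam T H hH k d hd
  rintro f ⟨g, hg, rfl⟩
  have h1 := fun j => (hG j (g j) (hg j)).1
  have h2 := fun j => (hG j (g j) (hg j)).2
  choose c hc using h2
  refine ⟨?_, _, hf g c h1 hc⟩
  choose C hC using h1
  refine ⟨∏ j, C j, fun x => ?_⟩
  rw [abs_prod]
  exact prod_le_prod (fun j _ => abs_nonneg _) fun j _ => hC _ _

end Pool.Agent.Q248.EQ
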