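import Pool.Agent.Q248.EQ.Fam

/-!
# Continuous functions on the product: closure and positivity
-/

set_option autoImplicit false

open Filter Topology Finset MeasureTheory

namespace Pool.Agent.Q248.EQ

open Q265.EQ

section

variable {m : ℕ} {T : Fin (m + 1) → Type} {H : ∀ j, T j → ℝ} {k : Fin (m + 1) → ℕ}
  {G : ∀ j, Submonoid (T j → ℝ)}

/-- uniform limits of finite sums of products of functions on the factors -/
def PCl (G : ∀ j, Submonoid (T j → ℝ)) (F : (∀ j, T j) → ℝ) : Prop := ∀ ε : ℝ, 0 < ε →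
  ∃ (n : ℕ) (f : Fin n → ∀ j, T j → ℝ), (∀ i j, Cl (G j) (f i j)) ∧
    ∀ x : ∀ j, T j, |F x - ∑ i, ∏ j, f i j (x j)| ≤ ε

lemma PCl.cl (hH : ∀ j, IsHt (H j))
    (hG : ∀ j, ∀ g ∈ G j, (∃ C : ℝ, ∀ t, |g t| ≤ C) ∧ ∃ c, HasLim (H j) (k j) g c)
    {F : (∀ j, T j) → ℝ} (hF : PCl G F) : Cl (GP G) F := by
  have hone : ∀ j, ∃ c, HasLim (H j) (k j) (fun _ => 1) c := fun j => (hG j 1 (one_mem _)).2
  choose d hd using hone
  have hHP := (fam T H hH k d hd).1
  have hGP' := hGP T H hH k G hG
  refine Cl_cl fun ε hε => ?_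
  obtain ⟨n, f, hf, h⟩ := hF ε hε
  refine ⟨fun x => ∑ i, ∏ j, f i j (x j), ?_, h⟩
  refine Cl_sum univ (f := fun i => fun x : ∀ j, T j => ∏ j, f i j (x j)) fun i _ => ?_
  exact Cl_prod hHP hGP' univ (f := fun j => fun x : ∀ j, T j => f i j (x j)) fun j _ =>
    Cl_pull G j (hf i j)

/-- positivity on the nonnegative functions which are not zero at all points -/
theorem PCl.pos (hH : ∀ j, IsHt (H j))
    (hG : ∀ j, ∀ g ∈ G j, (∃ C : ℝ, ∀ t, |g t| ≤ C) ∧ ∃ c, HasLim (H j) (k j) g c)
    (hsupp : ∀ j, ∀ F : T j → ℝ, Cl (G j) F → (∀ x, 0 ≤ F x) → ∀ x₀, 0 < F x₀ → ∀ c,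
      HasLim (H j) (k j) F c → 0 < c)
    {F : (∀ j, T j) → ℝ} (hF : PCl G F) (hF0 : ∀ x, 0 ≤ F x) {x₀ : ∀ j, T j} (hx₀ : 0 < F x₀)
    {c : ℝ} (hc : HasLim (fun x : ∀ j, T j => ∏ j, H j (x j)) ((∑ j, k j) + m) F c) : 0 < c := by
  classical
  have hone : ∀ j, ∃ c, HasLim (H j) (k j) (fun _ => 1) c := fun j => (hG j 1 (one_mem _)).2
  choose d hd using hone
  obtain ⟨hHP, hfam⟩ := fam T H hH k d hd
  set g := F x₀ with hg
  obtain ⟨n, f, hf, h⟩ := hF (g / 8) (by linarith)
  -- continuity of the polynomial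
  set a : Fin n → Fin (m + 1) → ℝ := fun i j => f i j (x₀ j) with ha
  have hcont : Continuous fun y : Fin n → Fin (m + 1) → ℝ => ∑ i, ∏ j, y i j := by fun_prop
  obtain ⟨δ, hδ, hδ'⟩ := Metric.continuous_iff.1 hcont a (g / 4) (by linarith)
  -- the bump functions
  set sq : ∀ j, T j → ℝ := fun j t => ∑ i, (f i j t + -(a i j)) * (f i j t + -(a i j)) with hsq
  set p : ∀ j, T j → ℝ := fun j t => max 0 (δ ^ 2 / 4 - sq j t) with hp
  have hsq0 : ∀ j t, 0 ≤ sq j t := fun j t => sum_nonneg fun i _ => mul_self_nonneg _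
  have hsqCl : ∀ j, Cl (G j) (sq j) := fun j => by
    refine Cl_sum univ (f := fun i => fun t => (f i j t + -(a i j)) * (f i j t + -(a i j)))
      fun i _ => ?_
    have h1 : Cl (G j) fun t => f i j t + -(a i j) := (hf i j).add (Cl.const _)
    exact h1.mul (hH j) (hG j) h1
  have hpCl : ∀ j, Cl (G j) (p j) := fun j => by
    obtain ⟨C, hC⟩ := (hsqCl j).bdd (hH j) (hG j)
    exact (hsqCl j).comp (hH j) (hG j) (a := 0) (b := C)
      (fun t => ⟨hsq0 j t, (le_abs_self _).trans (hC t)⟩) (h := fun x => max 0 (δ ^ 2 / 4 - x))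
      (Continuous.continuousOn (by fun_prop))
  have hp0 : ∀ j t, 0 ≤ p j t := fun j t => le_max_left _ _
  have hpx : ∀ j, 0 < p j (x₀ j) := fun j => by
    have h1 : sq j (x₀ j) = 0 := by
      simp only [hsq, ha]
      exact sum_eq_zero fun i _ => by ring
    simp only [hp]
    rw [h1, sub_zero]
    exact lt_max_of_lt_right (by positivity)
  have hpub : ∀ j t, p j t ≤ δ ^ 2 := fun j t => by
    refine max_le (by positivity) ?_
    have := hsq0 j t
    have : 0 < δ ^ 2 := by positivity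
    linarith
  have hpb : ∀ j, ∃ C : ℝ, ∀ t, |p j t| ≤ C := fun j =>
    ⟨δ ^ 2, fun t => by rw [abs_of_nonneg (hp0 j t)]; exact hpub j t⟩
  have hplim : ∀ j, ∃ c, HasLim (H j) (k j) (p j) c := fun j => (hpCl j).lim (hH j) (hG j)
  choose cp hcp using hplim
  have hcp0 : ∀ j, 0 < cp j := fun j =>
    hsupp j (p j) (hpCl j) (hp0 j) (x₀ j) (hpx j) (cp j) (hcp j)
  have hprod := hfam p cp hpb hcp
  -- the comparison
  set D := (δ ^ 2) ^ (m + 1) with hD
  have hD0 : 0 < D := by positivity
  have hle : ∀ x : ∀ j, T j, g / (2 * D) * ∏ j, p j (x j) ≤ F x := by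
    intro x
    by_cases hz : ∀ j, 0 < p j (x j)
    · have h1 : dist (fun i j => f i j (x j)) a < δ := by
        have h2 : ∀ i j, |f i j (x j) - a i j| ≤ δ / 2 := by
          intro i j
          have h3 := hz j
          simp only [hp] at h3
          have h4 : sq j (x j) < δ ^ 2 / 4 := by
            by_contra hcon
            push Not at hcon
            rw [max_eq_left (by linarith)] at h3
            exact lt_irrefl _ h3
          have h5 : (f i j (x j) + -(a i j)) * (f i j (x j) + -(a i j)) ≤ sq j (x j) :=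
            single_le_sum (f := fun i => (f i j (x j) + -(a i j)) * (f i j (x j) + -(a i j)))
              (fun i _ => mul_self_nonneg _) (mem_univ i)
          have h6 : (f i j (x j) - a i j) ^ 2 ≤ (δ / 2) ^ 2 := by
            have : (f i j (x j) - a i j) ^ 2 =
              (f i j (x j) + -(a i j)) * (f i j (x j) + -(a i j)) := by ring
            rw [this]
            have : (δ / 2) ^ 2 = δ ^ 2 / 4 := by ring
            rw [this]
            linarith
          exact abs_le_of_sq_le_sq h6 (by linarith)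
        refine lt_of_le_of_lt ?_ (show δ / 2 < δ by linarith)
        rw [dist_pi_le_iff (by linarith)]
        intro i
        rw [dist_pi_le_iff (by linarith)]
        intro j
        rw [Real.dist_eq]
        exact h2 i j
      have h3 := hδ' _ h1
      rw [Real.dist_eq] at h3
      have h4 := abs_lt.1 h3
      have h5 := abs_le.1 (h x)
      have h6 := abs_le.1 (h x₀)
      have h7 : g / 2 ≤ F x := by
        simp only [ha] at h4
        linarith [h4.1, h5.1, h6.2]
      have h8 : ∏ j, p j (x j) ≤ D := by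
        rw [hD]
        calc ∏ j, p j (x j) ≤ ∏ _j : Fin (m + 1), δ ^ 2 :=
              prod_le_prod (fun j _ => hp0 j _) fun j _ => hpub j _
          _ = (δ ^ 2) ^ (m + 1) := by simp
      calc g / (2 * D) * ∏ j, p j (x j) ≤ g / (2 * D) * D :=
            mul_le_mul_of_nonneg_left h8 (by positivity)
        _ = g / 2 := by field_simp
        _ ≤ F x := h7
    · push Not at hz
      obtain ⟨j, hj⟩ := hz
      have h1 : ∏ j, p j (x j) = 0 :=
        prod_eq_zero (mem_univ j) (le_antisymm hj (hp0 j _))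
      rw [h1, mul_zero]
      exact hF0 x
  have h1 := (hprod.smul hHP (g / (2 * D))).mono hHP hc hle
  refine lt_of_lt_of_le ?_ h1
  have h2 : 0 < bf k * ∏ j, cp j := mul_pos (bf_pos k) (prod_pos fun j _ => hcp0 j)
  positivity

end

end Pool.Agent.Q248.EQ
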