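import Pool.Agent.Q248.EQ.Conv

/-!
# The height on a product
-/

set_option autoImplicit false

open Filter Topology Finset MeasureTheory

namespace Pool.Agent.Q248.EQ

open Q265.EQ

variable {T T' : Type*}

lemma isHt_prod {H : T → ℝ} {H' : T' → ℝ} (hH : IsHt H) (hH' : IsHt H') :
    IsHt (fun p : T × T' => H p.1 * H' p.2) := by
  refine ⟨fun p => mul_pos (hH.pos _) (hH'.pos _), fun R => ?_⟩
  obtain ⟨m, hm0, -, hm⟩ := IsHt_low hH
  obtain ⟨m', hm0', -, hm'⟩ := IsHt_low hH'
  refine ((hH.fin (R / m')).prod (hH'.fin (R / m))).subset ?_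
  rintro ⟨x, y⟩ h
  have h1 : H x * H' y ≤ R := h
  refine ⟨?_, ?_⟩
  · show H x ≤ R / m'
    rw [le_div_iff₀ hm0']
    exact (mul_le_mul_of_nonneg_left (hm' y).le (hH.pos x).le).trans h1
  · show H' y ≤ R / m
    rw [le_div_iff₀ hm0, mul_comm]
    exact (mul_le_mul_of_nonneg_right (hm x).le (hH'.pos y).le).trans h1

lemma abs_S_le {H w : T → ℝ} (hH : IsHt H) {C : ℝ} (hw : ∀ t, |w t| ≤ C) (B : ℝ) :
    |S H w (fun _ => 1) B| ≤ |C| * S H (fun _ => 1) (fun _ => 1) B := by
  have g2 : ∀ t, |w t| ≤ |C| := fun t => (hw t).trans (le_abs_self C)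
  rw [← S_smul hH low_one, abs_le]
  constructor
  · have := S_mono hH low_one (w := fun t => -1 * (|C| * 1)) (w' := w) (fun t => by
      have := (abs_le.1 (g2 t)).1
      linarith) B
    rw [S_smul hH low_one] at this
    linarith
  · exact S_mono hH low_one (fun t => by
      have := (abs_le.1 (g2 t)).2
      linarith) B

/-- the sum over the product -/
lemma S_prod {H : T → ℝ} {H' : T' → ℝ} (hH : IsHt H) (hH' : IsHt H') (w : T → ℝ) (w' : T' → ℝ)
    {m : ℝ} (hm0 : 0 < m) (hm : ∀ t, m < H' t) {B : ℝ} (hB : 0 < B) :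
    S (fun p : T × T' => H p.1 * H' p.2) (fun p => w p.1 * w' p.2) (fun _ => 1) B =
      S H (fun x => w x * S H' w' (fun _ => 1) (B / H x)) (fun _ => 1) (B / m) := by
  classical
  obtain ⟨m1, hm10, -, hm1⟩ := IsHt_low hH
  obtain ⟨F, hF⟩ := hH.cover (Φ := fun _ => 1) low_one (B / m)
  obtain ⟨G, hG⟩ := hH'.cover (Φ := fun _ => 1) low_one (B / m1)
  have hcov : ∀ p : T × T', (fun p : T × T' => H p.1 * H' p.2) p * (fun _ => (1 : ℝ)) p ≤ B →
      p ∈ F ×ˢ G := by
    rintro ⟨x, y⟩ h
    have h1 : H x * H' y * 1 ≤ B := h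
    rw [mul_one] at h1
    rw [mem_product]
    refine ⟨hF x ?_, hG y ?_⟩
    · rw [mul_one, le_div_iff₀ hm0]
      exact (mul_le_mul_of_nonneg_left (hm y).le (hH.pos x).le).trans h1
    · rw [mul_one, le_div_iff₀ hm10, mul_comm]
      exact (mul_le_mul_of_nonneg_right (hm1 x).le (hH'.pos y).le).trans h1
  rw [S_eq hcov, S_eq hF, sum_product]
  refine sum_congr rfl fun x _ => ?_
  have hx := hH.pos x
  have h2 : S H' w' (fun _ => 1) (B / H x) = ∑ y ∈ G, if H' y * 1 ≤ B / H x then w' y else 0 := by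
    refine S_eq fun y hy => hG y (hy.trans ?_)
    exact div_le_div_of_nonneg_left hB.le hm10 (hm1 x).le
  have h3 : ∑ y ∈ G, (if H x * H' y * 1 ≤ B then w x * w' y else 0) =
      w x * S H' w' (fun _ => 1) (B / H x) := by
    rw [h2, mul_sum]
    refine sum_congr rfl fun y _ => ?_
    have h4 : H x * H' y * 1 ≤ B ↔ H' y * 1 ≤ B / H x := by
      rw [mul_one, mul_one, le_div_iff₀ hx, mul_comm]
    by_cases h5 : H' y * 1 ≤ B / H x
    · rw [if_pos h5, if_pos (h4.2 h5)]
    · rw [if_neg h5, if_neg (fun h => h5 (h4.1 h)), mul_zero]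
  rw [h3]
  by_cases h6 : H x * 1 ≤ B / m
  · rw [if_pos h6]
  · rw [if_neg h6, h2]
    have h7 : ∑ y ∈ G, (if H' y * 1 ≤ B / H x then w' y else 0) = 0 := by
      refine sum_eq_zero fun y _ => ?_
      rw [if_neg]
      intro h8
      apply h6
      rw [mul_one, le_div_iff₀ hx] at h8
      rw [mul_one, le_div_iff₀ hm0]
      have := mul_lt_mul_of_pos_left (hm y) hx
      linarith
    rw [h7, mul_zero]

/-- **The product of two counting problems.** -/
theorem lim_prod {H w : T → ℝ} {H' w' : T' → ℝ} (hH : IsHt H) (hH' : IsHt H') {C C' : ℝ}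
    (hw : ∀ t, |w t| ≤ C) (hw' : ∀ t, |w' t| ≤ C') {a b : ℕ} {c c' d : ℝ} (hl : HasLim H a w c)
    (hl' : HasLim H' b w' c') (hd : HasLim H a (fun _ => 1) d) :
    HasLim (fun p : T × T' => H p.1 * H' p.2) (a + b + 1) (fun p => w p.1 * w' p.2)
      (be a b * (c * c')) := by
  classical
  obtain ⟨m, hm0, hm1, hm⟩ := IsHt_low hH'
  set S' := S H' w' (fun _ => 1) with hS'
  set E : ℝ → ℝ := fun y => S' y - if 1 ≤ y then c' * (y * Real.log y ^ b) else 0 with hE
  have hEb : ∀ η : ℝ, 0 < η → ∃ M : ℝ, 0 ≤ M ∧ ∀ y : ℝ,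
      |E y| ≤ η * (if 1 ≤ y then y * Real.log y ^ b else 0) + M := by
    intro η hη
    have h1 : ∀ᶠ y in atTop, |S' y / X b y - c'| < η :=
      (hl'.sub_const c').abs.eventually_lt_const (by rw [sub_self, abs_zero]; exact hη)
    obtain ⟨R, hR⟩ := eventually_atTop.1 (h1.and ((X_pos b).and (eventually_ge_atTop 1)))
    obtain ⟨-, -, hR1⟩ := hR R le_rfl
    have hN0 : 0 ≤ S H' (fun _ => 1) (fun _ => 1) R := S_nonneg hH' low_one (fun _ => zero_le_one) _
    have hlR : 0 ≤ Real.log R := Real.log_nonneg hR1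
    refine ⟨|C'| * S H' (fun _ => 1) (fun _ => 1) R + |c'| * (R * Real.log R ^ b), by positivity,
      fun y => ?_⟩
    rcases le_or_gt R y with h2 | h2
    · obtain ⟨g1, g2, g3⟩ := hR y h2
      simp only [hE]
      rw [if_pos g3, if_pos g3]
      have g4 : |S' y - c' * (y * Real.log y ^ b)| ≤ η * (y * Real.log y ^ b) := by
        have e : S' y - c' * (y * Real.log y ^ b) = (S' y / X b y - c') * X b y := by
          rw [sub_mul, div_mul_cancel₀ _ g2.ne']
          rfl
        rw [e, abs_mul, abs_of_pos g2]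
        exact mul_le_mul_of_nonneg_right g1.le g2.le
      have : 0 ≤ |C'| * S H' (fun _ => 1) (fun _ => 1) R + |c'| * (R * Real.log R ^ b) := by
        positivity
      linarith
    · have g1 : |S' y| ≤ |C'| * S H' (fun _ => 1) (fun _ => 1) R := by
        refine (abs_S_le hH' hw' y).trans ?_
        exact mul_le_mul_of_nonneg_left (S_mono_B hH' (fun _ => zero_le_one) h2.le) (abs_nonneg _)
      have g2 : |if 1 ≤ y then c' * (y * Real.log y ^ b) else 0| ≤ |c'| * (R * Real.log R ^ b) := by
        split_ifs with h3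
        · have hly : 0 ≤ Real.log y := Real.log_nonneg h3
          rw [abs_mul, abs_of_nonneg (by positivity : 0 ≤ y * Real.log y ^ b)]
          have h4 : Real.log y ≤ Real.log R := Real.log_le_log (by linarith) h2.le
          gcongr
        · rw [abs_zero]
          positivity
      have g3 : 0 ≤ η * (if 1 ≤ y then y * Real.log y ^ b else 0) := by
        split_ifs with h3
        · have hly : 0 ≤ Real.log y := Real.log_nonneg h3
          have : 0 < y := by linarith
          positivity
        · rw [mul_zero]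
      have g4 : |E y| ≤ |S' y| + |if 1 ≤ y then c' * (y * Real.log y ^ b) else 0| := abs_sub _ _
      linarith
  -- the main terms
  have hmain := main_term hH hw a b hl
  have hmain1 := main_term hH (w := fun _ => 1) (C := 1) (fun _ => by simp) a b hd
  have hcnt : Tendsto (fun B => S H (fun _ => 1) (fun _ => 1) (B / m) / X (a + b + 1) B) atTop
      (𝓝 0) := by
    have h1 := hd.const hm0
    have h2 : Tendsto (fun B : ℝ => 1 / Real.log B ^ (b + 1)) atTop (𝓝 0) :=
      Tendsto.div_atTop tendsto_const_nhds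
        ((tendsto_pow_atTop (by omega)).comp Real.tendsto_log_atTop)
    have h3 := h1.mul h2
    rw [mul_zero] at h3
    refine h3.congr' ?_
    filter_upwards [eventually_gt_atTop 1] with B hB
    have hlB := Real.log_pos hB
    rw [S_const hm0]
    unfold X
    rw [add_assoc a b 1, pow_add]
    field_simp
    ring
  -- the difference
  have hD : Tendsto (fun B => (S (fun p : T × T' => H p.1 * H' p.2) (fun p => w p.1 * w' p.2)
      (fun _ => 1) B - c' * S H (fun t => w t * (B / H t) * (Real.log (B / H t)) ^ b)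
      (fun _ => 1) B) / X (a + b + 1) B) atTop (𝓝 0) := by
    rw [Metric.tendsto_atTop]
    intro ε hε
    set K := |d * be a b| + 1 with hK
    have hK0 : 0 < K := by positivity
    set C1 := |C| + 1 with hC1
    have hC10 : 0 < C1 := by positivity
    obtain ⟨M, hM0, hM⟩ := hEb (ε / (2 * C1 * K)) (by positivity)
    have e1 : ∀ᶠ B in atTop, S H (fun t => 1 * (B / H t) * (Real.log (B / H t)) ^ b) (fun _ => 1) B /
        X (a + b + 1) B < K :=
      hmain1.eventually_lt_const (by
        rw [hK]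
        have := le_abs_self (d * be a b)
        linarith)
    have e2 : ∀ᶠ B in atTop, C1 * M * (S H (fun _ => 1) (fun _ => 1) (B / m) / X (a + b + 1) B) <
        ε / 2 := by
      have h1 := hcnt.const_mul (C1 * M)
      rw [mul_zero] at h1
      exact h1.eventually_lt_const (by linarith)
    obtain ⟨B0, hB0⟩ := eventually_atTop.1 (e1.and (e2.and ((X_pos (a + b + 1)).and
      (eventually_ge_atTop 1))))
    refine ⟨B0, fun B hB => ?_⟩
    obtain ⟨g1, g2, g3, g4⟩ := hB0 B hB
    have hBp : 0 < B := by linarith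
    rw [Real.dist_eq, sub_zero, abs_div, abs_of_pos g3, div_lt_iff₀ g3]
    rw [div_lt_iff₀ g3] at g1
    rw [← mul_div_assoc, div_lt_iff₀ g3] at g2
    obtain ⟨F, hF⟩ := hH.cover (Φ := fun _ => 1) low_one (B / m)
    have hBm : B ≤ B / m := by
      rw [le_div_iff₀ hm0]
      nlinarith
    have hFB : ∀ t, H t * (fun _ => (1 : ℝ)) t ≤ B → t ∈ F := fun t ht => hF t (ht.trans hBm)
    rw [S_prod hH hH' w w' hm0 hm hBp, S_eq hF, S_eq hFB, mul_sum, ← sum_sub_distrib]
    rw [S_eq hFB] at g1
    rw [S_eq hF] at g2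
    -- termwise
    have hterm : ∀ t ∈ F, |(if H t * 1 ≤ B / m then w t * S' (B / H t) else 0) -
        c' * (if H t * 1 ≤ B then w t * (B / H t) * (Real.log (B / H t)) ^ b else 0)| ≤
        C1 * (ε / (2 * C1 * K)) * (if H t * 1 ≤ B then 1 * (B / H t) * (Real.log (B / H t)) ^ b else 0) +
        C1 * M * (if H t * 1 ≤ B / m then 1 else 0) := by
      intro t _
      have ht := hH.pos t
      have hwt : |w t| ≤ C1 := by
        have := hw t
        have := le_abs_self C
        linarith
      have h1B : 1 ≤ B / H t ↔ H t * 1 ≤ B := by rw [mul_one, one_le_div ht]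
      by_cases h1 : H t * 1 ≤ B / m
      · rw [if_pos h1, if_pos h1]
        have h2 : w t * S' (B / H t) -
            c' * (if H t * 1 ≤ B then w t * (B / H t) * (Real.log (B / H t)) ^ b else 0) =
            w t * E (B / H t) := by
          simp only [hE]
          by_cases h3 : H t * 1 ≤ B
          · rw [if_pos h3, if_pos (h1B.2 h3)]
            ring
          · rw [if_neg h3, if_neg (fun h => h3 (h1B.1 h))]
            ring
        have h4 := hM (B / H t)
        have h5 : (if 1 ≤ B / H t then B / H t * Real.log (B / H t) ^ b else 0) =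
            (if H t * 1 ≤ B then 1 * (B / H t) * (Real.log (B / H t)) ^ b else 0) := by
          by_cases h3 : H t * 1 ≤ B
          · rw [if_pos h3, if_pos (h1B.2 h3), one_mul]
          · rw [if_neg h3, if_neg (fun h => h3 (h1B.1 h))]
        rw [h5] at h4
        rw [h2, abs_mul]
        calc |w t| * |E (B / H t)| ≤ C1 * (ε / (2 * C1 * K) *
              (if H t * 1 ≤ B then 1 * (B / H t) * (Real.log (B / H t)) ^ b else 0) + M) :=
              mul_le_mul hwt h4 (abs_nonneg _) hC10.le
          _ = _ := by ring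
      · have h3 : ¬ H t * 1 ≤ B := fun h => h1 (h.trans hBm)
        rw [if_neg h1, if_neg h1, if_neg h3, if_neg h3]
        simp
    have hsum := (abs_sum_le_sum_abs _ _).trans (sum_le_sum hterm)
    rw [sum_add_distrib, ← mul_sum, ← mul_sum] at hsum
    refine lt_of_le_of_lt hsum ?_
    have e5 : C1 * (ε / (2 * C1 * K)) = ε / 2 / K := by field_simp
    rw [e5]
    have h6 : ε / 2 / K * ∑ t ∈ F, (if H t * 1 ≤ B then 1 * (B / H t) * (Real.log (B / H t)) ^ b else 0) ≤
        ε / 2 / K * (K * X (a + b + 1) B) := mul_le_mul_of_nonneg_left g1.le (by positivity)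
    have h7 : ε / 2 / K * (K * X (a + b + 1) B) = ε / 2 * X (a + b + 1) B := by field_simp
    have h8 : C1 * M * ∑ t ∈ F, (if H t * 1 ≤ B / m then (1 : ℝ) else 0) < ε / 2 * X (a + b + 1) B := g2
    linarith
  have hsum := (hmain.const_mul c').add hD
  rw [add_zero] at hsum
  have e : c' * (c * be a b) = be a b * (c * c') := by ring
  rw [e] at hsum
  refine hsum.congr fun B => ?_
  rw [← mul_div_assoc, ← add_div]
  congr 1
  ring

end Pool.Agent.Q248.EQ
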